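import Pool.Agent.H9.KA.Stmts
import Pool.Agent.H20.KA.TRC

/-!
# Hiding in a shorter zone
-/

set_option autoImplicit false

namespace Pool.KA

open Finset Real
open Pool.Agent.H49.Ent Pool.Agent.H32.Dense Pool.STK

namespace HI2m

/-- Bayes' formula. -/
theorem bayes {Ω S T U : Type*} [Fintype Ω] {p : Ω → ℝ} (hp : ∀ ω, 0 ≤ p ω) (X : Ω → S)
    (z : Ω → T) (W : Ω → U) :
    CH p X (fun ω => (z ω, W ω)) = CH p X W - (CH p z W - CH p z (fun ω => (X ω, W ω))) := by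
  have h1 := CH_chain hp X z W
  have h2 := CH_chain hp z X W
  have h3 : CH p (fun ω => (X ω, z ω)) W = CH p (fun ω => (z ω, X ω)) W := by
    refine CH_congr hp ?_ ?_ (fun _ _ _ _ h => h) (fun _ _ _ _ h => h) <;>
    · intro ω ω' _ _ h
      simp only [Prod.mk.injEq] at h ⊢
      tauto
  linarith

/-- The direction at full resolution, given the direction at resolution `x`. -/
theorem dir_le {m J : ℕ} (F : Fam m J) (x : ℕ) (hx : x ≤ J) :
    CH F.p (F.D J) F.Z ≤ CH F.p (F.D x) F.Z + m * (((J : ℝ) - x) * Real.log 2) := by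
  have h1 := CH_le_add F.isLaw.nonneg (F.D J) (F.D x) F.Z
  have h2 := TRC.CH_floor F.isLaw F.d F.Z x (J - x)
  have e : x + (J - x) = J := Nat.add_sub_cancel' hx
  rw [e, Nat.cast_sub hx] at h2
  have h3 : CH F.p (F.D J) (fun ω => (F.D x ω, F.Z ω)) ≤ m * (((J : ℝ) - x) * Real.log 2) := h2
  linarith

end HI2m

/-- **Hiding** in a shorter zone. -/
theorem hi2_thm (hT : TRCStmt) (hS : SLPStmt) : HI2Stmt := by
  intro m
  obtain ⟨C₀, hC₀, hT⟩ := hT m
  obtain ⟨C₁, hC₁, hS⟩ := hS m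
  refine ⟨C₀ + C₁, add_nonneg hC₀ hC₁, ?_⟩
  intro J w x hx μ lam τ η e F κ z hJ hwx hx1 hμ hV he hez hG hG'
  have hp := F.isLaw.nonneg
  have hJ0 : (0 : ℝ) < J := by exact_mod_cast hJ
  have hx0 : (0 : ℝ) < x := by exact_mod_cast hx1
  have hxJ : (x : ℝ) ≤ J := by exact_mod_cast hx
  have hwx' : (w : ℝ) ≤ x := by exact_mod_cast hwx
  have hw0 : (0 : ℝ) ≤ w := Nat.cast_nonneg w
  have hslope := ((hS J w x hx μ lam τ η e F hJ hwx hx1 hμ hV he).1) hG
  set ID := CH F.p z F.Z - CH F.p z (fun ω => (F.D x ω, F.Z ω)) with hID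
  set IX : ℕ → ℝ := fun j => CH F.p z F.W - CH F.p z (fun ω => (F.X j ω, F.W ω)) with hIX
  set A : ℕ → ℝ := fun j => CH F.p (F.D x) F.Z - CH F.p (F.X j) F.W -
    m * (((x : ℝ) - j) * Real.log 2) with hA
  have happ : ∀ j ≤ x, |((F.cnd z).trc x hx).V j - (A j - ID + IX j)| ≤ e + C₀ := by
    intro j hj
    have h := ((hT J (F.cnd z) x hx e hez).2 j hj).1
    have e1 : CH (F.cnd z).p ((F.cnd z).D x) (F.cnd z).Z = CH F.p (F.D x) F.Z - ID :=
      HI2m.bayes hp (F.D x) z F.Z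
    have e2 : CH (F.cnd z).p ((F.cnd z).X j) (F.cnd z).W = CH F.p (F.X j) F.W - IX j := by
      have e3 : CH (F.cnd z).p ((F.cnd z).X j) (F.cnd z).W =
          CH F.p (F.X j) (fun ω => (z ω, F.W ω)) := by
        show CH F.p (F.X j) (fun ω => (F.T ω, (z ω, F.Z ω))) = _
        refine CH_congr hp (fun _ _ _ _ h => (Prod.ext_iff.mp h).1)
          (fun _ _ _ _ h => (Prod.ext_iff.mp h).1) ?_ ?_ <;>
        · intro ω ω' _ _ hh
          simp only [Prod.mk.injEq, Fam.W] at hh ⊢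
          tauto
      rw [e3]
      exact HI2m.bayes hp (F.X j) z F.W
    rw [e1, e2] at h
    have e4 : A j - ID + IX j = CH F.p (F.D x) F.Z - ID - (CH F.p (F.X j) F.W - IX j) -
        m * (((x : ℝ) - j) * Real.log 2) := by
      rw [hA]; ring
    rw [e4]
    exact h
  have hAx := happ x le_rfl
  have hAw := happ w hwx
  rw [abs_le] at hAx hAw
  have hAA : A x - A w = F.V x - F.V w := by
    simp only [hA, Fam.V]
    ring
  have hAV : F.V w ≤ A w := by
    have h := HI2m.dir_le F x hx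
    simp only [hA, Fam.V]
    nlinarith
  have hE : 0 ≤ e + C₀ := by
    have := hAx.1
    have := hAx.2
    linarith
  unfold Fam.G at hG'
  set Vx := ((F.cnd z).trc x hx).V x with hVx
  set Vw := ((F.cnd z).trc x hx).V w with hVw
  have hr0 : 0 ≤ ((x : ℝ) - w) / x := div_nonneg (by linarith) hx0.le
  have hr1 : ((x : ℝ) - w) / x ≤ 1 := by
    rw [div_le_one hx0]
    linarith
  have e5 : ((x : ℝ) - w) * (μ * Vw / x - (lam + τ)) =
      ((x : ℝ) - w) / x * (μ * Vw) - (lam + τ) * ((x : ℝ) - w) := by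
    field_simp
  rw [e5] at hG'
  have h6 : ((x : ℝ) - w) / x * (μ * (F.V w - ID + IX w - (e + C₀))) ≤
      ((x : ℝ) - w) / x * (μ * Vw) := by
    refine mul_le_mul_of_nonneg_left (mul_le_mul_of_nonneg_left ?_ hμ) hr0
    linarith [hAw.1]
  have h7 : ((x : ℝ) - w) / x * (μ * (e + C₀)) ≤ μ * (e + C₀) := by
    have : 0 ≤ μ * (e + C₀) := mul_nonneg hμ hE
    calc ((x : ℝ) - w) / x * (μ * (e + C₀)) ≤ 1 * (μ * (e + C₀)) :=
          mul_le_mul_of_nonneg_right hr1 this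
      _ = μ * (e + C₀) := one_mul _
  have h8 : μ * F.V w / J * ((x : ℝ) - w) ≤ ((x : ℝ) - w) / x * (μ * F.V w) := by
    have h9 : 0 ≤ μ * F.V w := mul_nonneg hμ hV
    have h10 : μ * F.V w / J ≤ μ * F.V w / x := div_le_div_of_nonneg_left h9 hx0 hxJ
    calc μ * F.V w / J * ((x : ℝ) - w) ≤ μ * F.V w / x * ((x : ℝ) - w) :=
          mul_le_mul_of_nonneg_right h10 (by linarith)
      _ = ((x : ℝ) - w) / x * (μ * F.V w) := by ring
  have e11 : (τ + μ * (ID - IX w) / x) * ((x : ℝ) - w) =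
      τ * ((x : ℝ) - w) + ((x : ℝ) - w) / x * (μ * (ID - IX w)) := by
    field_simp
  have e12 : ((x : ℝ) - w) / x * (μ * (F.V w - ID + IX w - (e + C₀))) =
      ((x : ℝ) - w) / x * (μ * F.V w) - ((x : ℝ) - w) / x * (μ * (ID - IX w)) -
        ((x : ℝ) - w) / x * (μ * (e + C₀)) := by ring
  have hLHS : CH F.p z (fun ω => (F.X w ω, F.W ω)) - CH F.p z (fun ω => (F.X x ω, F.W ω)) =
      IX x - IX w := by
    simp only [hIX]
    ring
  have hID' : (CH F.p z F.Z - CH F.p z (fun ω => (F.D x ω, F.Z ω))) -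
        (CH F.p z F.W - CH F.p z (fun ω => (F.X w ω, F.W ω))) = ID - IX w := rfl
  rw [hLHS, e11]
  have hμC : 0 ≤ μ * C₁ := mul_nonneg hμ hC₁
  have hVV : Vx - Vw ≥ (F.V x - F.V w) + (IX x - IX w) - 2 * (e + C₀) := by
    linarith [hAx.1, hAw.2]
  have e13 : (lam - μ * F.V w / J) * ((x : ℝ) - w) =
      lam * ((x : ℝ) - w) - μ * F.V w / J * ((x : ℝ) - w) := by ring
  have e14 : (lam + τ) * ((x : ℝ) - w) = lam * ((x : ℝ) - w) + τ * ((x : ℝ) - w) := by ring
  have e15 : (2 + μ) * (e + (C₀ + C₁)) = 2 * (e + C₀) + μ * (e + C₀) + 2 * C₁ + μ * C₁ := by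
    ring
  have e16 : C₁ * (1 + μ) = C₁ + μ * C₁ := by ring
  rw [e15]
  rw [e13, e16] at hslope
  rw [e14] at hG'
  rw [e12] at h6
  linarith

end Pool.KA
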